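import Pool.Agent.P8H67.TD.Stm

/-!
# Project TD, packages DJ and MVS: Mayer-Vietoris for two open subsets of a space

Both follow from `Pool.Agent.H904R2.MV.mv_acyc_succ`, applied to the space `A ∪ B`.
-/

set_option autoImplicit false

open Set

namespace Pool.Agent.P8H44.TD

open Pool.Agent.P8H67.TD
open Pool.Agent.H904R2 (RAcyc Ch IsBdy)
open Pool.Agent.Helper922.HB.Sc (Sing sbd)

/-- Mayer-Vietoris for two open subsets -/
theorem mvg {Z : Type} [TopologicalSpace Z] (A B : Set Z) (hA : IsOpen A) (hB : IsOpen B) (j : ℕ)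
    (h1 : RAcyc A (j + 1)) (h2 : RAcyc B (j + 1)) (h3 : RAcyc (A ∩ B : Set Z) j) :
    RAcyc (A ∪ B : Set Z) (j + 1) := by
  let U : Set (A ∪ B : Set Z) := {x | x.1 ∈ A}
  let V : Set (A ∪ B : Set Z) := {x | x.1 ∈ B}
  have hU : IsOpen U := hA.preimage continuous_subtype_val
  have hV : IsOpen V := hB.preimage continuous_subtype_val
  have hc : ∀ x : (A ∪ B : Set Z), x ∈ U ∨ x ∈ V := fun x => x.2
  refine Pool.Agent.H904R2.MV.mv_acyc_succ hU hV hc j ?_ ?_ ?_
  · let f : C(U, A) := ⟨fun x => ⟨x.1.1, x.2⟩,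
      (continuous_subtype_val.comp continuous_subtype_val).subtype_mk _⟩
    let g : C(A, U) := ⟨fun x => ⟨⟨x.1, Or.inl x.2⟩, x.2⟩,
      ((continuous_subtype_val).subtype_mk _).subtype_mk _⟩
    exact Pool.Agent.H904R2.MV.racyc_of_retract f g rfl (j + 1) h1
  · let f : C(V, B) := ⟨fun x => ⟨x.1.1, x.2⟩,
      (continuous_subtype_val.comp continuous_subtype_val).subtype_mk _⟩
    let g : C(B, V) := ⟨fun x => ⟨⟨x.1, Or.inr x.2⟩, x.2⟩,
      ((continuous_subtype_val).subtype_mk _).subtype_mk _⟩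
    exact Pool.Agent.H904R2.MV.racyc_of_retract f g rfl (j + 1) h2
  · let f : C((U ∩ V : Set (A ∪ B : Set Z)), (A ∩ B : Set Z)) := ⟨fun x => ⟨x.1.1, x.2.1, x.2.2⟩,
      (continuous_subtype_val.comp continuous_subtype_val).subtype_mk _⟩
    let g : C((A ∩ B : Set Z), (U ∩ V : Set (A ∪ B : Set Z))) :=
      ⟨fun x => ⟨⟨x.1, Or.inl x.2.1⟩, x.2.1, x.2.2⟩,
      ((continuous_subtype_val).subtype_mk _).subtype_mk _⟩
    exact Pool.Agent.H904R2.MV.racyc_of_retract f g rfl j h3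

/-- the empty space -/
theorem racyc_empty (X : Type) [TopologicalSpace X] [IsEmpty X] (j : ℕ) : RAcyc X j := by
  intro z _
  have he : IsEmpty (Sing X j) := ⟨fun σ => IsEmpty.false (σ (vtx 0))⟩
  have hz : z = 0 := by
    ext σ
    exact he.elim σ
  exact ⟨0, by rw [hz, map_zero]⟩

/-- package MVS -/
theorem mvs : S_MVS := fun _ _ A B hA hB j h1 h2 h3 => mvg A B hA hB (j + 1) h1 h2 h3

/-- package DJ -/
theorem dj : S_DJ := by
  intro Z _ A B hA hB hd j h1 h2
  have : IsEmpty (A ∩ B : Set Z) := ⟨fun x => (Set.disjoint_left.mp hd x.2.1) x.2.2⟩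
  exact mvg A B hA hB j h1 h2 (racyc_empty _ j)

end Pool.Agent.P8H44.TD
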